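import Pool.Agent.Q196.EX.Alg
import Pool.Agent.Q196.NM.Main

/-!
# Rational functions sharing two nonzero values with `λ w R'` on `ℂ*`

Let `λ ≠ 0` and let `R` be a non-constant rational function. If `R` and `∂_z R = λ w R'` share two
distinct values `a, b ∈ ℂ ∖ {0}` in `ℂ* = ℂ ∖ {0}` then `R ≡ ∂_z R`.

Idea of the proof. If a single value `a ≠ 0` is shared, put `T = λ (R - a) / a`. All critical points
of `F(ζ) = ζ - T(exp ζ)` are fixed points of `F`. If `R(0) = a` then `T(0) = 0` and `F` has a
parabolic petal in a left half plane; every segment in the complement of the critical values lifts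
through `F`, so the parametrisation of the petal can be pulled back under all iterates of `F`, and
the Schwarz lemma gives a contradiction. Hence `R(0) ≠ a`, and in the same way `R(∞) ≠ a`. If `a` and
`b` are shared, counting zeros of `∂_z R - R` gives the Riccati equation
`∂_z R - R = c (R - a) (R - b)` with a constant `c`, and `c ≠ 0` is impossible.
-/

set_option autoImplicit false

open Polynomial Q196.NM

namespace Pool.Agent.Results.MP_5565ac_an.TwoSharedValues

/-- `∂_z R (w) = λ w R'(w)` at a point `w` which is not a pole of `R`. -/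
noncomputable def dz (lam : ℂ) (R : RatFunc ℂ) (w : ℂ) : ℂ := lam * w * deriv (value R) w

/-- `R` and `∂_z R` share the finite value `a` in `ℂ* = ℂ ∖ {0}`: for every `w ≠ 0`, `R(w) = a` holds
exactly when `∂_z R(w) = a`. (In `ℂ*` the functions `R` and `∂_z R` have the same poles.) -/
def SharesStar (R : RatFunc ℂ) (lam a : ℂ) : Prop :=
  ∀ w : ℂ, w ≠ 0 → ((¬ IsPole R w ∧ value R w = a) ↔ (¬ IsPole R w ∧ dz lam R w = a))

theorem ps_of_shares {R : RatFunc ℂ} {lam a : ℂ} (h : SharesStar R lam a) :
    Q196.EX.PS R.num R.denom lam a := by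
  intro w hw hqw
  have hR : R = algebraMap ℂ[X] (RatFunc ℂ) R.num / algebraMap ℂ[X] (RatFunc ℂ) R.denom :=
    R.num_div_denom.symm
  have hnp : ¬ IsPole R w := hqw
  have h1 := h w hw
  rw [and_iff_right hnp, and_iff_right hnp, dz, deriv_value hR hqw, value,
    div_eq_iff hqw, ← mul_div_assoc, div_eq_iff (pow_ne_zero 2 hqw)] at h1
  rw [h1, Q196.EX.wr, eval_sub, eval_mul, eval_mul]

/-- Q1 has a positive answer: if the non-constant rational function `R` and `∂_z R = λ w R'` share
two distinct nonzero values in `ℂ*`, then `R ≡ ∂_z R`. -/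
theorem result (lam : ℂ) (hlam : lam ≠ 0) (R : RatFunc ℂ) (hR : NonConst R) (a b : ℂ)
    (ha : a ≠ 0) (hb : b ≠ 0) (hab : a ≠ b) (hsa : SharesStar R lam a)
    (hsb : SharesStar R lam b) : ∀ w : ℂ, ¬ IsPole R w → value R w = dz lam R w := by
  have hRnd : R = algebraMap ℂ[X] (RatFunc ℂ) R.num / algebraMap ℂ[X] (RatFunc ℂ) R.denom :=
    R.num_div_denom.symm
  have hd0 : R.denom ≠ 0 := R.denom_ne_zero
  have hcop : ∀ w : ℂ, R.denom.eval w = 0 → R.num.eval w ≠ 0 := by
    intro w hw hn
    obtain ⟨u, v, huv⟩ := R.isCoprime_num_denom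
    have h3 := congrArg (Polynomial.eval w) huv
    rw [eval_add, eval_mul, eval_mul, hw, hn] at h3
    simp at h3
  have hnc : ∀ c : ℂ, R.num ≠ C c * R.denom := by
    intro c h
    apply hR c
    rw [hRnd, h, map_mul, RatFunc.algebraMap_C,
      mul_div_cancel_right₀ _ (RatFunc.algebraMap_ne_zero hd0)]
  have hE := Q196.EX.main hcop hnc hd0 hlam ha hb hab (ps_of_shares hsa) (ps_of_shares hsb)
  intro w hw
  have hqw : R.denom.eval w ≠ 0 := hw
  have h1 := congrArg (Polynomial.eval w) hE
  simp only [Q196.EX.ee, Q196.EX.wr, eval_sub, eval_mul, eval_C, eval_X, eval_zero] at h1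
  rw [dz, deriv_value hRnd hqw, value]
  field_simp
  linear_combination -h1

end Pool.Agent.Results.MP_5565ac_an.TwoSharedValues
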